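import Mathlib
import Pool.Agent.Helper6.NX.GoalsB

/-!
# Packet NX-HOMC

The noise changes a position only a little.
-/

set_option autoImplicit false

namespace Pool.Agent.Helper13.NX

open Equiv Pool.Agent.Helper6.NX Pool.Agent.Helper15.An

/-- sum against a law -/
theorem sum_law {Ω α : Type} [Fintype Ω] [Fintype α] (P : Ω → ℝ) (X : Ω → α) (g : α → ℝ) :
    ∑ a, law P X a * g a = ∑ ω, P ω * g (X ω) := by
  classical
  simp only [law, Finset.sum_mul, ite_mul, zero_mul]
  rw [Finset.sum_comm]
  refine Finset.sum_congr rfl (fun ω _ => ?_)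
  rw [Finset.sum_eq_single (X ω)]
  · simp
  · intro b _ hb
    simp [Ne.symm hb]
  · intro h
    exact absurd (Finset.mem_univ _) h

/-- average of a function of the image of a point -/
theorem avg_point {n : ℕ} (g : Fin n → ℝ) (x : Fin n) :
    (n : ℝ) * ∑ α : Perm (Fin n), g (α x) = (n.factorial : ℝ) * ∑ y, g y := by
  have h1 : ∀ x' : Fin n, ∑ α : Perm (Fin n), g (α x') = ∑ α : Perm (Fin n), g (α x) := by
    intro x'
    rw [← Equiv.sum_comp (Equiv.mulRight (Equiv.swap x x')) (fun α : Perm (Fin n) => g (α x'))]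
    refine Finset.sum_congr rfl (fun α _ => ?_)
    rw [Equiv.coe_mulRight, Perm.mul_apply, Equiv.swap_apply_right]
  calc (n : ℝ) * ∑ α : Perm (Fin n), g (α x)
      = ∑ _x' : Fin n, ∑ α : Perm (Fin n), g (α x) := by
        rw [Finset.sum_const, Finset.card_univ, Fintype.card_fin, nsmul_eq_mul]
    _ = ∑ x' : Fin n, ∑ α : Perm (Fin n), g (α x') := by
        exact Finset.sum_congr rfl (fun x' _ => (h1 x').symm)
    _ = ∑ α : Perm (Fin n), ∑ x' : Fin n, g (α x') := Finset.sum_comm
    _ = ∑ _α : Perm (Fin n), ∑ y, g y := by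
        refine Finset.sum_congr rfl (fun α _ => ?_)
        exact Equiv.sum_comp α g
    _ = (n.factorial : ℝ) * ∑ y, g y := by
        rw [Finset.sum_const, Finset.card_univ, Fintype.card_perm, Fintype.card_fin, nsmul_eq_mul]

/-- indicator of the last `r` points -/
noncomputable def last (n r : ℕ) (y : Fin n) : ℝ := if n - r ≤ (y : ℕ) then 1 else 0

theorem last_nonneg (n r : ℕ) (y : Fin n) : 0 ≤ last n r y := by
  unfold last
  split_ifs <;> norm_num

theorem sum_last (havg : S_AVG) {n r : ℕ} (hr : r ≤ n) : ∑ y : Fin n, last n r y = r := by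
  have h1 := (havg n (n - r)).2.2 (Nat.sub_le n r)
  have h2 : ∀ y : Fin n, last n r y = 1 - (if (y : ℕ) < n - r then (1 : ℝ) else 0) := by
    intro y
    unfold last
    by_cases h : n - r ≤ (y : ℕ)
    · rw [if_pos h, if_neg (not_lt.mpr h), sub_zero]
    · rw [if_neg h, if_pos (not_le.mp h), sub_self]
  rw [Finset.sum_congr rfl (fun y _ => h2 y), Finset.sum_sub_distrib, Finset.sum_const,
    Finset.card_univ, Fintype.card_fin, nsmul_eq_mul, mul_one, ← Finset.sum_filter,
    Finset.sum_const, nsmul_eq_mul, mul_one]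
  have h3 : (Finset.univ.filter (fun y : Fin n => (y : ℕ) < n - r)).card = n - r := h1
  rw [h3, Nat.cast_sub hr]
  ring

/-- the probability that a point is among the last `r` ones -/
theorem avg_last (havg : S_AVG) {n r : ℕ} (hr : r ≤ n) (x : Fin n) :
    (n.factorial : ℝ)⁻¹ * ∑ α : Perm (Fin n), last n r (α⁻¹ x) = r / n := by
  have hn : (0 : ℝ) < n := by exact_mod_cast x.pos
  have hf : (0 : ℝ) < (n.factorial : ℝ) := by exact_mod_cast n.factorial_pos
  have h1 : ∑ α : Perm (Fin n), last n r (α⁻¹ x) = ∑ α : Perm (Fin n), last n r (α x) :=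
    Equiv.sum_comp (Equiv.inv (Perm (Fin n))) (fun α => last n r (α x))
  have h2 := avg_point (last n r) x
  rw [sum_last havg hr] at h2
  rw [h1]
  field_simp
  linear_combination h2

/-- averages over the positions -/
theorem avF_eq (havg : S_AVG) {n : ℕ} (F : Fin n → Finset (Fin n) → ℝ) (p : Fin n)
    (D : Finset (Fin n)) (hp : p ∉ D) :
    (n.factorial : ℝ)⁻¹ * ∑ π : Perm (Fin n), F (π p) (im π D) = avF F D.card := by
  have hlt : D.card < n := by
    have := Finset.card_lt_univ_of_notMem hp
    rwa [Fintype.card_fin] at this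
  rw [avF, dif_pos hlt, (havg n D.card).1 hlt F p D hp rfl]

theorem avF_anti (havg : S_AVG) {n : ℕ} (F : Fin n → Finset (Fin n) → ℝ)
    (h0 : ∀ p D, 0 ≤ F p D ∧ F p D ≤ 1) (ha : ∀ p D D', D ⊆ D' → F p D' ≤ F p D) :
    Antitone (avF F) := by
  apply antitone_nat_of_succ_le
  intro j
  have hf : (0 : ℝ) < (n.factorial : ℝ) := by exact_mod_cast n.factorial_pos
  by_cases h : j + 1 < n
  · have h1 : (⟨j + 1, h⟩ : Fin n) ∉ ini n j := by
      simp [ini]
    have h2 := avF_eq havg F ⟨j + 1, h⟩ (ini n j) h1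
    have h3 : (ini n j).card = j := (havg n j).2.2 (by omega)
    rw [h3] at h2
    rw [← h2, avF, dif_pos h]
    refine mul_le_mul_of_nonneg_left (Finset.sum_le_sum (fun π _ => ?_)) (inv_nonneg.mpr hf.le)
    apply ha
    unfold im
    apply Finset.image_subset_image
    intro i hi
    simp only [ini, Finset.mem_filter, Finset.mem_univ, true_and] at hi ⊢
    omega
  · rw [avF, dif_neg h, avF]
    split_ifs with h'
    · exact mul_nonneg (inv_nonneg.mpr hf.le) (Finset.sum_nonneg (fun π _ => (h0 _ _).1))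
    · exact le_rfl

/-- the packet -/
theorem thmHOMC (havg : S_AVG) : S_HOMC := by
  classical
  intro n k L r hk F hL hr h0 ha
  have hf : (0 : ℝ) < (n.factorial : ℝ) := by exact_mod_cast n.factorial_pos
  have hn : (0 : ℝ) < n := by exact_mod_cast (lt_of_le_of_lt (Nat.zero_le k) hk)
  have hLr : (0 : ℝ) < L := by exact_mod_cast hL
  have hanti := avF_anti havg F h0 ha
  -- the average over the positions for a fixed permutation
  set T : Perm (Fin n) → ℝ := fun σ => (n.factorial : ℝ)⁻¹ * ∑ π : Perm (Fin n),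
    |F ((π * σ) ⟨k, hk⟩) (im (π * σ) (ini n k)) - F (π ⟨k, hk⟩) (im π (ini n k))| with hT
  have hT1 : ∀ σ, T σ ≤ 1 := by
    intro σ
    have h1 : ∑ π : Perm (Fin n),
        |F ((π * σ) ⟨k, hk⟩) (im (π * σ) (ini n k)) - F (π ⟨k, hk⟩) (im π (ini n k))| ≤
        ∑ _π : Perm (Fin n), (1 : ℝ) := by
      apply Finset.sum_le_sum
      intro π _
      rw [abs_le]
      have e1 := h0 ((π * σ) ⟨k, hk⟩) (im (π * σ) (ini n k))
      have e2 := h0 (π ⟨k, hk⟩) (im π (ini n k))
      constructor <;> linarith [e1.1, e1.2, e2.1, e2.2]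
    rw [Finset.sum_const, Finset.card_univ, Fintype.card_perm, Fintype.card_fin,
      nsmul_eq_mul, mul_one] at h1
    calc T σ ≤ (n.factorial : ℝ)⁻¹ * (n.factorial : ℝ) :=
          mul_le_mul_of_nonneg_left h1 (inv_nonneg.mpr hf.le)
      _ = 1 := inv_mul_cancel₀ hf.ne'
  have hv0 : 0 ≤ 2 * (avF F k - avF F (k + L)) := by
    have := hanti (Nat.le_add_right k L)
    linarith
  -- the bound for a conjugate of a permutation of the last points
  have hkey : ∀ (α : Perm (Fin n)) (τ : stab n (n - r)),
      T (α * (τ : Perm (Fin n)) * α⁻¹) ≤ last n r (α⁻¹ ⟨k, hk⟩) +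
        (∑ x ∈ ini n k, last n r (α⁻¹ x)) / L + 2 * (avF F k - avF F (k + L)) := by
    intro α τ
    have hsum0 : 0 ≤ ∑ x ∈ ini n k, last n r (α⁻¹ x) :=
      Finset.sum_nonneg (fun x _ => last_nonneg n r _)
    have hdiv0 : 0 ≤ (∑ x ∈ ini n k, last n r (α⁻¹ x)) / L := div_nonneg hsum0 hLr.le
    by_cases hA : n - r ≤ ((α⁻¹ ⟨k, hk⟩ : Fin n) : ℕ)
    · have h1 : last n r (α⁻¹ ⟨k, hk⟩) = 1 := by rw [last, if_pos hA]
      have h2 := hT1 (α * (τ : Perm (Fin n)) * α⁻¹)
      rw [h1]
      linarith
    · by_cases hB : (L : ℝ) < ∑ x ∈ ini n k, last n r (α⁻¹ x)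
      · have h1 : 1 ≤ (∑ x ∈ ini n k, last n r (α⁻¹ x)) / L := by
          rw [le_div_iff₀ hLr]
          linarith
        have h2 := hT1 (α * (τ : Perm (Fin n)) * α⁻¹)
        have h3 := last_nonneg n r (α⁻¹ ⟨k, hk⟩)
        linarith
      · have hfix : ∀ x : Fin n, ¬ n - r ≤ ((α⁻¹ x : Fin n) : ℕ) →
            (α * (τ : Perm (Fin n)) * α⁻¹) x = x := by
          intro x hx
          rw [Perm.mul_apply, Perm.mul_apply, (mem_stab.1 τ.2).2 _ (not_le.mp hx)]
          simp
        set σ : Perm (Fin n) := α * (τ : Perm (Fin n)) * α⁻¹ with hσ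
        have hk1 : σ ⟨k, hk⟩ = ⟨k, hk⟩ := hfix _ hA
        have hkD0 : (⟨k, hk⟩ : Fin n) ∉ ini n k := by simp [ini]
        have hkD1 : (⟨k, hk⟩ : Fin n) ∉ im σ (ini n k) := by
          intro hmem
          rw [im, Finset.mem_image] at hmem
          obtain ⟨x, hx, hxk⟩ := hmem
          have : x = ⟨k, hk⟩ := σ.injective (by rw [hxk, hk1])
          rw [this] at hx
          exact hkD0 hx
        have hkD : (⟨k, hk⟩ : Fin n) ∉ ini n k ∪ im σ (ini n k) := by
          rw [Finset.mem_union]
          rintro (h | h)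
          · exact hkD0 h
          · exact hkD1 h
        have hc0 : (ini n k).card = k := (havg n k).2.2 hk.le
        have hc1 : (im σ (ini n k)).card = k := by
          rw [im, Finset.card_image_of_injective _ σ.injective, hc0]
        have hcD : (ini n k ∪ im σ (ini n k)).card ≤ k + L := by
          have h1 : im σ (ini n k) \ ini n k ⊆
              ((ini n k).filter (fun x => n - r ≤ ((α⁻¹ x : Fin n) : ℕ))).image σ := by
            intro y hy
            rw [Finset.mem_sdiff, im, Finset.mem_image] at hy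
            obtain ⟨⟨x, hx, hxy⟩, hy2⟩ := hy
            rw [Finset.mem_image]
            refine ⟨x, ?_, hxy⟩
            rw [Finset.mem_filter]
            refine ⟨hx, ?_⟩
            by_contra hcon
            have := hfix x hcon
            rw [← hxy, this] at hy2
            exact hy2 hx
          have h2 : ((ini n k).filter (fun x => n - r ≤ ((α⁻¹ x : Fin n) : ℕ))).card ≤ L := by
            have h3 : ∑ x ∈ ini n k, last n r (α⁻¹ x) =
                (((ini n k).filter (fun x => n - r ≤ ((α⁻¹ x : Fin n) : ℕ))).card : ℝ) := by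
              simp only [last]
              rw [Finset.card_filter]
              push_cast
              rfl
            rw [h3] at hB
            exact_mod_cast not_lt.mp hB
          calc (ini n k ∪ im σ (ini n k)).card
              = (ini n k).card + (im σ (ini n k) \ ini n k).card := by
                rw [← Finset.union_sdiff_self_eq_union, Finset.card_union_of_disjoint
                  Finset.disjoint_sdiff]
            _ ≤ k + L := by
                rw [hc0]
                have := (Finset.card_le_card h1).trans Finset.card_image_le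
                omega
        have hbound : T σ ≤ 2 * (avF F k - avF F (ini n k ∪ im σ (ini n k)).card) := by
          have e0 := avF_eq havg F ⟨k, hk⟩ (ini n k) hkD0
          have e1 := avF_eq havg F ⟨k, hk⟩ (im σ (ini n k)) hkD1
          have e2 := avF_eq havg F ⟨k, hk⟩ (ini n k ∪ im σ (ini n k)) hkD
          rw [hc0] at e0
          rw [hc1] at e1
          have h4 : T σ ≤ (n.factorial : ℝ)⁻¹ * ∑ π : Perm (Fin n),
              ((F (π ⟨k, hk⟩) (im π (ini n k)) -
                F (π ⟨k, hk⟩) (im π (ini n k ∪ im σ (ini n k)))) +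
              (F (π ⟨k, hk⟩) (im π (im σ (ini n k))) -
                F (π ⟨k, hk⟩) (im π (ini n k ∪ im σ (ini n k))))) := by
            refine mul_le_mul_of_nonneg_left (Finset.sum_le_sum (fun π _ => ?_))
              (inv_nonneg.mpr hf.le)
            have e3 : (π * σ) ⟨k, hk⟩ = π ⟨k, hk⟩ := by rw [Perm.mul_apply, hk1]
            have e4 : im (π * σ) (ini n k) = im π (im σ (ini n k)) := by
              unfold im
              rw [Finset.image_image]
              rfl
            rw [e3, e4]
            have e5 : F (π ⟨k, hk⟩) (im π (ini n k ∪ im σ (ini n k))) ≤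
                F (π ⟨k, hk⟩) (im π (ini n k)) :=
              ha _ _ _ (Finset.image_subset_image Finset.subset_union_left)
            have e6 : F (π ⟨k, hk⟩) (im π (ini n k ∪ im σ (ini n k))) ≤
                F (π ⟨k, hk⟩) (im π (im σ (ini n k))) :=
              ha _ _ _ (Finset.image_subset_image Finset.subset_union_right)
            rw [abs_le]
            constructor <;> linarith
          refine h4.trans (le_of_eq ?_)
          rw [Finset.sum_add_distrib, Finset.sum_sub_distrib, Finset.sum_sub_distrib, mul_add,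
            mul_sub, mul_sub, e0, e1, e2]
          ring
        have h5 := hanti hcD
        have h6 := last_nonneg n r (α⁻¹ ⟨k, hk⟩)
        linarith
  -- averaging
  have hcard : (Fintype.card (Perm (Fin n)) : ℝ) = n.factorial := by
    rw [Fintype.card_perm, Fintype.card_fin]
  have hst : (0 : ℝ) < (Fintype.card (stab n (n - r)) : ℝ) := by
    exact_mod_cast Fintype.card_pos
  have hlhs : (n.factorial : ℝ)⁻¹ * ∑ π : Perm (Fin n), ∑ σ : Perm (Fin n), nse n r σ *
      |F ((π * σ) ⟨k, hk⟩) (im (π * σ) (ini n k)) - F (π ⟨k, hk⟩) (im π (ini n k))| =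
      ∑ σ : Perm (Fin n), nse n r σ * T σ := by
    rw [Finset.sum_comm, Finset.mul_sum]
    refine Finset.sum_congr rfl (fun σ _ => ?_)
    rw [← Finset.mul_sum, hT]
    ring
  rw [hlhs]
  have h7 : ∑ σ : Perm (Fin n), nse n r σ * T σ =
      ∑ z : Perm (Fin n) × stab n (n - r), (n.factorial : ℝ)⁻¹ *
        (Fintype.card (stab n (n - r)) : ℝ)⁻¹ * T (z.1 * (z.2 : Perm (Fin n)) * z.1⁻¹) := by
    unfold nse
    rw [sum_law]
    refine Finset.sum_congr rfl (fun z _ => ?_)
    simp only [prd, unif, hcard]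
  rw [h7]
  calc ∑ z : Perm (Fin n) × stab n (n - r), (n.factorial : ℝ)⁻¹ *
        (Fintype.card (stab n (n - r)) : ℝ)⁻¹ * T (z.1 * (z.2 : Perm (Fin n)) * z.1⁻¹)
      ≤ ∑ z : Perm (Fin n) × stab n (n - r), (n.factorial : ℝ)⁻¹ *
        (Fintype.card (stab n (n - r)) : ℝ)⁻¹ * (last n r (z.1⁻¹ ⟨k, hk⟩) +
        (∑ x ∈ ini n k, last n r (z.1⁻¹ x)) / L + 2 * (avF F k - avF F (k + L))) := by
        refine Finset.sum_le_sum (fun z _ => ?_)
        exact mul_le_mul_of_nonneg_left (hkey z.1 z.2) (by positivity)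
    _ = ∑ α : Perm (Fin n), (n.factorial : ℝ)⁻¹ * (last n r (α⁻¹ ⟨k, hk⟩) +
        (∑ x ∈ ini n k, last n r (α⁻¹ x)) / L + 2 * (avF F k - avF F (k + L))) := by
        rw [Fintype.sum_prod_type]
        refine Finset.sum_congr rfl (fun α _ => ?_)
        simp only [Finset.sum_const, Finset.card_univ, nsmul_eq_mul]
        field_simp
    _ = (n.factorial : ℝ)⁻¹ * ∑ α : Perm (Fin n), last n r (α⁻¹ ⟨k, hk⟩) +
        (∑ x ∈ ini n k, (n.factorial : ℝ)⁻¹ * ∑ α : Perm (Fin n), last n r (α⁻¹ x)) / L +
        2 * (avF F k - avF F (k + L)) := by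
        have e8 : ∑ x ∈ ini n k, (n.factorial : ℝ)⁻¹ * ∑ α : Perm (Fin n), last n r (α⁻¹ x) =
            (n.factorial : ℝ)⁻¹ * ∑ α : Perm (Fin n), ∑ x ∈ ini n k, last n r (α⁻¹ x) := by
          rw [← Finset.mul_sum, Finset.sum_comm]
        rw [e8, ← Finset.mul_sum, Finset.sum_add_distrib, Finset.sum_add_distrib,
          ← Finset.sum_div, Finset.sum_const, Finset.card_univ, Fintype.card_perm,
          Fintype.card_fin, nsmul_eq_mul]
        field_simp
    _ = r / n + k * r / (n * L) + 2 * (avF F k - avF F (k + L)) := by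
        rw [avg_last havg hr, Finset.sum_congr rfl (fun x _ => avg_last havg hr x),
          Finset.sum_const, (havg n k).2.2 hk.le, nsmul_eq_mul]
        field_simp

end Pool.Agent.Helper13.NX
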